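import Mathlib
import Pool.Agent.H203R3.CC.Final

/-!
Coupling constants of Kadison–Kastler-close II₁ factors agree, with a universal bound on the
distance.
-/

open scoped InnerProductSpace ENNReal

namespace Pool.Agent.Results.MP_41729c_an.CouplingConstant

open H203R3.CC

/-- There is `δ > 0` such that, for every Hilbert space `H` and all II₁ factors `M`, `N` on `H`
whose unit balls have Hausdorff distance less than `δ`, the coupling constants of `M` and `N`
agree. -/
theorem result :
    ∃ δ : ℝ, 0 < δ ∧ ∀ (H : Type) [NormedAddCommGroup H] [InnerProductSpace ℂ H]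
      [CompleteSpace H] (M N : VonNeumannAlgebra H) (ξ η : ℕ → H), IsII1 M ξ → IsII1 N η →
      Metric.hausdorffDist {x : H →L[ℂ] H | x ∈ M ∧ ‖x‖ ≤ 1}
        {x : H →L[ℂ] H | x ∈ N ∧ ‖x‖ ≤ 1} < δ →
      coupling M ξ = coupling N η := H203R3.CC.main

end Pool.Agent.Results.MP_41729c_an.CouplingConstant
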